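import Pool.Agent.H228.HBent7c

/-!
# Homogeneous bent functions of degree seven (problem MP_47443c_co, part of Q1)

There is a bound `N` such that for every even `n > N` there is a homogeneous bent function of
degree `7` in `n` variables.
-/

namespace Pool.Agent.Results.MP_47443c_co.DegreeSeven

/-- Homogeneous bent functions of degree `7` exist for all large even `n`. -/
theorem result : ∃ N : ℕ, 2 ≤ N ∧ ∀ n : ℕ, N < n → Even n →
    ∃ S : Finset (Finset (Fin n)), (∀ s ∈ S, s.card = 7) ∧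
      ∀ a : Fin n → ZMod 2, (∑ x : Fin n → ZMod 2,
        (-1 : ℤ) ^ (ZMod.val ((∑ s ∈ S, ∏ i ∈ s, x i) + ∑ i : Fin n, a i * x i))) ^ 2 = 2 ^ n := by
  obtain ⟨N, hN⟩ := Pool.Agent.H228.Bent.all7
  refine ⟨2 * N + 2, by omega, fun n hn he => ?_⟩
  obtain ⟨m, hm⟩ := he
  obtain rfl : n = 2 * m := by omega
  obtain ⟨S, hS, h⟩ := hN m (by omega)
  refine ⟨S, hS, fun a => ?_⟩
  simpa [Pool.Agent.H228.Bent.chi] using h a

end Pool.Agent.Results.MP_47443c_co.DegreeSeven
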